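import Pool.Agent.Work.MP_ef7f46_co.Interface

/-!
MP_ef7f46_co: digit lemmas, coordinates of lines, block G0.
-/

set_option autoImplicit false
open Classical

namespace EpsNet

namespace Geom

/-- two digits in base `B` -/
theorem digits2 {B c0 c1 : ℤ} (h0 : |c0| < B) (h : c0 + B * c1 = 0) : c0 = 0 ∧ c1 = 0 := by
  have hB : 0 < B := lt_of_le_of_lt (abs_nonneg _) h0
  have hd : B ∣ c0 := ⟨-c1, by linarith⟩
  have hc : c0 = 0 := Int.eq_zero_of_abs_lt_dvd hd h0
  refine ⟨hc, ?_⟩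
  rw [hc, zero_add] at h
  rcases mul_eq_zero.mp h with h | h
  · omega
  · exact h

/-- three digits in base `B` -/
theorem digits3 {B c0 c1 c2 : ℤ} (h0 : |c0| < B) (h1 : |c1| < B)
    (h : c0 + B * c1 + B * B * c2 = 0) : c0 = 0 ∧ c1 = 0 ∧ c2 = 0 := by
  have e : c0 + B * (c1 + B * c2) = 0 := by linarith [h, mul_assoc B B c2]
  obtain ⟨a, b⟩ := digits2 h0 e
  obtain ⟨b, c⟩ := digits2 h1 b
  exact ⟨a, b, c⟩

theorem base_pos {t s : ℕ} (ht : 1 ≤ t) (hs : 1 ≤ s) : 0 < base t s := by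
  unfold base; positivity

theorem base_ge {t s : ℕ} (hs : 1 ≤ s) : 100 * (t * s) ≤ base t s := by
  unfold base
  have : t * s ≤ t * s ^ 2 := Nat.mul_le_mul_left _ (by nlinarith)
  nlinarith

theorem emb_zero (t s : ℕ) (x : Pt t s) :
    emb t s x 0 = (((x.1 : ℕ) : ℤ) + (base t s : ℤ) * ((x.2.1 : ℕ) : ℤ) : ℤ) := by
  simp [emb]

theorem emb_one (t s : ℕ) (x : Pt t s) :
    emb t s x 1 = (((x.2.2.1 : ℕ) : ℤ) + (base t s : ℤ) * ((x.2.2.2 : ℕ) : ℤ) : ℤ) := by
  simp [emb]

/-- membership in a line of the plane -/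
theorem mem_line_iff {p q : Plane} (hpq : p ≠ q) (z : Plane) :
    z ∈ affineSpan ℝ ({p, q} : Set Plane) ↔
      (z 0 - p 0) * (q 1 - p 1) = (z 1 - p 1) * (q 0 - p 0) := by
  rw [mem_affineSpan_pair_iff_exists_lineMap_eq]
  constructor
  · rintro ⟨r, rfl⟩
    simp only [AffineMap.lineMap_apply, vsub_eq_sub, vadd_eq_add, PiLp.add_apply,
      PiLp.smul_apply, PiLp.sub_apply, smul_eq_mul]
    ring
  · intro h
    by_cases h0 : q 0 - p 0 = 0
    · have h1 : q 1 - p 1 ≠ 0 := by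
        intro h1
        apply hpq
        ext i
        fin_cases i
        · simp only [Fin.zero_eta]; linarith
        · simp only [Fin.mk_one]; linarith
      refine ⟨(z 1 - p 1) / (q 1 - p 1), ?_⟩
      rw [h0, mul_zero] at h
      have hz : z 0 - p 0 = 0 := by
        rcases mul_eq_zero.mp h with h | h
        · exact h
        · exact absurd h h1
      ext i
      fin_cases i
      · simp only [AffineMap.lineMap_apply, vsub_eq_sub, vadd_eq_add, PiLp.add_apply,
          PiLp.smul_apply, PiLp.sub_apply, smul_eq_mul, Fin.zero_eta, h0]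
        linarith
      · simp only [AffineMap.lineMap_apply, vsub_eq_sub, vadd_eq_add, PiLp.add_apply,
          PiLp.smul_apply, PiLp.sub_apply, smul_eq_mul, Fin.mk_one]
        rw [div_mul_cancel₀ _ h1]
        ring
    · refine ⟨(z 0 - p 0) / (q 0 - p 0), ?_⟩
      ext i
      fin_cases i
      · simp only [AffineMap.lineMap_apply, vsub_eq_sub, vadd_eq_add, PiLp.add_apply,
          PiLp.smul_apply, PiLp.sub_apply, smul_eq_mul, Fin.zero_eta]
        rw [div_mul_cancel₀ _ h0]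
        ring
      · simp only [AffineMap.lineMap_apply, vsub_eq_sub, vadd_eq_add, PiLp.add_apply,
          PiLp.smul_apply, PiLp.sub_apply, smul_eq_mul, Fin.mk_one]
        rw [div_mul_eq_mul_div, h, mul_div_assoc, div_self h0]
        ring

/-- a line is spanned by any two of its points -/
theorem line_eq {p q x y : Plane} (hxy : x ≠ y)
    (hx : x ∈ affineSpan ℝ ({p, q} : Set Plane)) (hy : y ∈ affineSpan ℝ ({p, q} : Set Plane)) :
    affineSpan ℝ ({x, y} : Set Plane) = affineSpan ℝ ({p, q} : Set Plane) :=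
  affineSpan_pair_eq_of_mem_of_mem_of_ne hx hy hxy

/-- three points on a line -/
theorem collinear_eq {p q x y z : Plane}
    (hx : x ∈ affineSpan ℝ ({p, q} : Set Plane)) (hy : y ∈ affineSpan ℝ ({p, q} : Set Plane))
    (hz : z ∈ affineSpan ℝ ({p, q} : Set Plane)) :
    (z 0 - x 0) * (y 1 - x 1) = (z 1 - x 1) * (y 0 - x 0) := by
  rw [mem_affineSpan_pair_iff_exists_lineMap_eq] at hx hy hz
  obtain ⟨a, rfl⟩ := hx
  obtain ⟨b, rfl⟩ := hy
  obtain ⟨c, rfl⟩ := hz
  simp only [AffineMap.lineMap_apply, vsub_eq_sub, vadd_eq_add, PiLp.add_apply,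
    PiLp.smul_apply, PiLp.sub_apply, smul_eq_mul]
  ring

end Geom

open Geom

theorem stmt_G0 : Stmt_G0 := by
  intro t s ht hs x y hxy
  have hb : (100 * (t * s) : ℤ) ≤ base t s := by exact_mod_cast base_ge (t := t) hs
  have hts : (s : ℤ) ≤ t * s := by
    have : s ≤ t * s := Nat.le_mul_of_pos_left _ ht
    exact_mod_cast this
  have h0 := congrArg (fun z : Plane => z 0) hxy
  have h1 := congrArg (fun z : Plane => z 1) hxy
  simp only [emb_zero, emb_one] at h0 h1
  have h0' := Int.cast_injective (α := ℝ) h0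
  have h1' := Int.cast_injective (α := ℝ) h1
  obtain ⟨x1, x2, x3, x4⟩ := x
  obtain ⟨y1, y2, y3, y4⟩ := y
  simp only at h0' h1'
  have b1 := x1.2
  have b2 := y1.2
  have b3 := x3.2
  have b4 := y3.2
  have e3 : ((3 * t * s : ℕ) : ℤ) = 3 * (t * s) := by push_cast; ring
  have A : ((x1 : ℕ) : ℤ) - (y1 : ℕ) = 0 ∧ ((x2 : ℕ) : ℤ) - (y2 : ℕ) = 0 := by
    apply digits2 (B := base t s)
    · rw [abs_lt]; constructor <;> omega
    · linarith
  have B' : ((x3 : ℕ) : ℤ) - (y3 : ℕ) = 0 ∧ ((x4 : ℕ) : ℤ) - (y4 : ℕ) = 0 := by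
    apply digits2 (B := base t s)
    · rw [abs_lt]; constructor <;> omega
    · linarith
  simp only [Prod.mk.injEq]
  refine ⟨Fin.ext ?_, Fin.ext ?_, Fin.ext ?_, Fin.ext ?_⟩ <;> omega

end EpsNet
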