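import Pool.Agent.Work.MP_ef7f46_co_helper59.G0

/-!
MP_ef7f46_co: block G1.
-/

set_option autoImplicit false
open Classical

namespace EpsNet

namespace Geom

/-- coordinates are determined by the integer differences -/
theorem pt_ext {t s : ℕ} {x y : Pt t s} (h1 : ((x.1 : ℕ) : ℤ) = (y.1 : ℕ))
    (h2 : ((x.2.1 : ℕ) : ℤ) = (y.2.1 : ℕ)) (h3 : ((x.2.2.1 : ℕ) : ℤ) = (y.2.2.1 : ℕ))
    (h4 : ((x.2.2.2 : ℕ) : ℤ) = (y.2.2.2 : ℕ)) : x = y := by
  obtain ⟨x1, x2, x3, x4⟩ := x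
  obtain ⟨y1, y2, y3, y4⟩ := y
  simp only [Prod.mk.injEq]
  simp only at h1 h2 h3 h4
  refine ⟨Fin.ext ?_, Fin.ext ?_, Fin.ext ?_, Fin.ext ?_⟩ <;> omega

/-- collinearity of embedded points gives three equations between the differences -/
theorem three_eqs {t s : ℕ} (ht : 1 ≤ t) (hs : 1 ≤ s) {p q : Plane} {x y z : Pt t s}
    (hx : emb t s x ∈ affineSpan ℝ ({p, q} : Set Plane))
    (hy : emb t s y ∈ affineSpan ℝ ({p, q} : Set Plane))
    (hz : emb t s z ∈ affineSpan ℝ ({p, q} : Set Plane)) :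
    let a : ℤ := ((y.1 : ℕ) : ℤ) - (x.1 : ℕ)
    let b : ℤ := ((y.2.1 : ℕ) : ℤ) - (x.2.1 : ℕ)
    let c : ℤ := ((y.2.2.1 : ℕ) : ℤ) - (x.2.2.1 : ℕ)
    let d : ℤ := ((y.2.2.2 : ℕ) : ℤ) - (x.2.2.2 : ℕ)
    let a' : ℤ := ((z.1 : ℕ) : ℤ) - (x.1 : ℕ)
    let b' : ℤ := ((z.2.1 : ℕ) : ℤ) - (x.2.1 : ℕ)
    let c' : ℤ := ((z.2.2.1 : ℕ) : ℤ) - (x.2.2.1 : ℕ)
    let d' : ℤ := ((z.2.2.2 : ℕ) : ℤ) - (x.2.2.2 : ℕ)
    a' * c = c' * a ∧ b' * d = d' * b ∧ a' * d + b' * c = c' * b + d' * a := by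
  intro a b c d a' b' c' d'
  have h := collinear_eq hx hy hz
  simp only [emb_zero, emb_one] at h
  have h' : (((a' * c - c' * a) + (base t s : ℤ) * (a' * d + b' * c - c' * b - d' * a) +
      (base t s : ℤ) * (base t s : ℤ) * (b' * d - d' * b) : ℤ) : ℝ) = 0 := by
    simp only [a, b, c, d, a', b', c', d']
    push_cast
    push_cast at h
    linarith
  have h'' : ((a' * c - c' * a) + (base t s : ℤ) * (a' * d + b' * c - c' * b - d' * a) +
      (base t s : ℤ) * (base t s : ℤ) * (b' * d - d' * b) : ℤ) = 0 := by exact_mod_cast h'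
  have A : ∀ u v : Fin s, |((u : ℕ) : ℤ) - (v : ℕ)| ≤ (s : ℤ) := by
    intro u v
    have := u.2
    have := v.2
    rw [abs_le]; constructor <;> omega
  have C : ∀ u v : Fin (3 * t * s), |((u : ℕ) : ℤ) - (v : ℕ)| ≤ (3 * t * s : ℤ) := by
    intro u v
    have h1 := u.2
    have h2 := v.2
    have h3 : ((3 * t * s : ℕ) : ℤ) = (3 * t * s : ℤ) := by push_cast; ring
    rw [abs_le]; constructor <;> omega
  have M : ∀ u v : ℤ, |u| ≤ (s : ℤ) → |v| ≤ (3 * t * s : ℤ) → |u * v| ≤ (3 * (t * s ^ 2) : ℤ) := by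
    intro u v hu hv
    rw [abs_mul]
    calc |u| * |v| ≤ (s : ℤ) * (3 * t * s) :=
          mul_le_mul hu hv (abs_nonneg _) (by positivity)
      _ = _ := by ring
  have hB : (base t s : ℤ) = 100 * (t * s ^ 2) := by
    unfold base; push_cast; ring
  have hpos : (0 : ℤ) < t * s ^ 2 := by
    have h1 : (0 : ℤ) < t := by exact_mod_cast ht
    have h2 : (0 : ℤ) < s := by exact_mod_cast hs
    positivity
  have ha := A y.1 x.1
  have hb := A y.2.1 x.2.1
  have hc := C y.2.2.1 x.2.2.1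
  have hd := C y.2.2.2 x.2.2.2
  have ha' := A z.1 x.1
  have hb' := A z.2.1 x.2.1
  have hc' := C z.2.2.1 x.2.2.1
  have hd' := C z.2.2.2 x.2.2.2
  have m1 := abs_le.mp (M a' c ha' hc)
  have m2 := abs_le.mp (M a c' ha hc')
  have m3 := abs_le.mp (M a' d ha' hd)
  have m4 := abs_le.mp (M b' c hb' hc)
  have m5 := abs_le.mp (M b c' hb hc')
  have m6 := abs_le.mp (M a d' ha hd')
  obtain ⟨r0, r1, r2⟩ := digits3 (B := (base t s : ℤ)) (by
      rw [abs_lt, hB]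
      constructor <;> linarith [m1.1, m1.2, m2.1, m2.2, mul_comm a c']) (by
      rw [abs_lt, hB]
      constructor <;> linarith [m3.1, m3.2, m4.1, m4.2, m5.1, m5.2, m6.1, m6.2,
        mul_comm b c', mul_comm a d']) h''
  exact ⟨by linarith, by linarith, by linarith⟩

end Geom

open Geom

theorem stmt_G1 : Stmt_G1 := by
  intro t s ht hs p q hpq x y hx hy hdet
  unfold det at hdet
  have key := fun (z : Pt t s) hz => three_eqs ht hs hx hy (z := z) hz
  simp only at key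
  obtain ⟨a, ha⟩ : ∃ a : ℤ, a = ((y.1 : ℕ) : ℤ) - (x.1 : ℕ) := ⟨_, rfl⟩
  obtain ⟨b, hb⟩ : ∃ b : ℤ, b = ((y.2.1 : ℕ) : ℤ) - (x.2.1 : ℕ) := ⟨_, rfl⟩
  obtain ⟨c, hc⟩ : ∃ c : ℤ, c = ((y.2.2.1 : ℕ) : ℤ) - (x.2.2.1 : ℕ) := ⟨_, rfl⟩
  obtain ⟨d, hd⟩ : ∃ d : ℤ, d = ((y.2.2.2 : ℕ) : ℤ) - (x.2.2.2 : ℕ) := ⟨_, rfl⟩
  rw [← ha, ← hb, ← hc, ← hd] at hdet
  simp only [← ha, ← hb, ← hc, ← hd] at key
  have hdet' : a * d - b * c ≠ 0 := hdet
  -- all differences are proportional to `(a, b, c, d)`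
  have prop : ∀ z : Pt t s, emb t s z ∈ affineSpan ℝ ({p, q} : Set Plane) →
      ∀ a' b' c' d' : ℤ, a' = ((z.1 : ℕ) : ℤ) - (x.1 : ℕ) → b' = ((z.2.1 : ℕ) : ℤ) - (x.2.1 : ℕ) →
      c' = ((z.2.2.1 : ℕ) : ℤ) - (x.2.2.1 : ℕ) → d' = ((z.2.2.2 : ℕ) : ℤ) - (x.2.2.2 : ℕ) →
      (a * b' = a' * b ∧ a * c' = a' * c ∧ a * (d' * a - a' * d) = 0) ∧
      (b * d' = b' * d ∧ b * (c' * b - b' * c) = 0) := by
    intro z hz a' b' c' d' ea eb ec ed
    obtain ⟨k1, k2, k3⟩ := key z hz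
    rw [← ea, ← eb, ← ec, ← ed] at *
    have e : (a' * b - b' * a) * (a * d - b * c) = 0 := by
      linear_combination (-b ^ 2) * k1 - a ^ 2 * k2 + a * b * k3
    have e' : a' * b - b' * a = 0 := by
      rcases mul_eq_zero.mp e with h | h
      · exact h
      · exact absurd h hdet'
    refine ⟨⟨by linarith, by linarith, ?_⟩, by linarith, ?_⟩
    · linear_combination (-a) * k3 + b * k1 - c * e'
    · linear_combination (-b) * k3 + a * k2 + d * e'
  by_cases h0 : a = 0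
  · -- then `b ≠ 0`
    have hb0 : b ≠ 0 := by
      rintro rfl
      apply hdet'
      rw [h0]; ring
    have := Finset.card_le_card_of_injOn
      (s := Finset.univ.filter (fun z : Pt t s => emb t s z ∈ affineSpan ℝ {p, q}))
      (t := (Finset.univ : Finset (Fin s))) (fun z => z.2.1) (fun z _ => Finset.mem_univ _) ?_
    · simpa using this
    · intro z hz z' hz' hzz
      simp only [Finset.coe_filter, Finset.mem_univ, true_and, Set.mem_ofPred_eq] at hz hz'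
      have hzz' : ((z.2.1 : ℕ) : ℤ) = (z'.2.1 : ℕ) := by
        have : z.2.1 = z'.2.1 := hzz
        rw [this]
      obtain ⟨⟨p1, p2, p3⟩, p4, p5⟩ := prop z hz _ _ _ _ rfl rfl rfl rfl
      obtain ⟨⟨q1, q2, q3⟩, q4, q5⟩ := prop z' hz' _ _ _ _ rfl rfl rfl rfl
      have p5' := (mul_eq_zero.mp p5).resolve_left hb0
      have q5' := (mul_eq_zero.mp q5).resolve_left hb0
      rw [hzz'] at p1 p4 p5'
      apply pt_ext
      · have : b * (((z.1 : ℕ) : ℤ) - (x.1 : ℕ)) = b * (((z'.1 : ℕ) : ℤ) - (x.1 : ℕ)) := by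
          linarith
        have := mul_left_cancel₀ hb0 this
        linarith
      · exact hzz'
      · have : b * (((z.2.2.1 : ℕ) : ℤ) - (x.2.2.1 : ℕ)) =
            b * (((z'.2.2.1 : ℕ) : ℤ) - (x.2.2.1 : ℕ)) := by
          linarith
        have := mul_left_cancel₀ hb0 this
        linarith
      · have : b * (((z.2.2.2 : ℕ) : ℤ) - (x.2.2.2 : ℕ)) =
            b * (((z'.2.2.2 : ℕ) : ℤ) - (x.2.2.2 : ℕ)) := by
          linarith
        have := mul_left_cancel₀ hb0 this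
        linarith
  · have := Finset.card_le_card_of_injOn
      (s := Finset.univ.filter (fun z : Pt t s => emb t s z ∈ affineSpan ℝ {p, q}))
      (t := (Finset.univ : Finset (Fin s))) (fun z => z.1) (fun z _ => Finset.mem_univ _) ?_
    · simpa using this
    · intro z hz z' hz' hzz
      simp only [Finset.coe_filter, Finset.mem_univ, true_and, Set.mem_ofPred_eq] at hz hz'
      have hzz' : ((z.1 : ℕ) : ℤ) = (z'.1 : ℕ) := by
        have : z.1 = z'.1 := hzz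
        rw [this]
      obtain ⟨⟨p1, p2, p3⟩, p4, p5⟩ := prop z hz _ _ _ _ rfl rfl rfl rfl
      obtain ⟨⟨q1, q2, q3⟩, q4, q5⟩ := prop z' hz' _ _ _ _ rfl rfl rfl rfl
      have p3' := (mul_eq_zero.mp p3).resolve_left h0
      have q3' := (mul_eq_zero.mp q3).resolve_left h0
      rw [hzz'] at p1 p2 p3'
      apply pt_ext
      · exact hzz'
      · have : a * (((z.2.1 : ℕ) : ℤ) - (x.2.1 : ℕ)) = a * (((z'.2.1 : ℕ) : ℤ) - (x.2.1 : ℕ)) := by
          linarith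
        have := mul_left_cancel₀ h0 this
        linarith
      · have : a * (((z.2.2.1 : ℕ) : ℤ) - (x.2.2.1 : ℕ)) =
            a * (((z'.2.2.1 : ℕ) : ℤ) - (x.2.2.1 : ℕ)) := by
          linarith
        have := mul_left_cancel₀ h0 this
        linarith
      · have : a * (((z.2.2.2 : ℕ) : ℤ) - (x.2.2.2 : ℕ)) =
            a * (((z'.2.2.2 : ℕ) : ℤ) - (x.2.2.2 : ℕ)) := by
          linarith
        have := mul_left_cancel₀ h0 this
        linarith

end EpsNet
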