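import Pool.Agent.Work.MP_ef7f46_co_helper59.G1

/-!
MP_ef7f46_co: block G2.
-/

set_option autoImplicit false
open Classical

namespace EpsNet

namespace Geom

/-- the parameter set -/
noncomputable def TT (s m : ℕ) : Finset (Σ _ : ℕ, ℤ × ℤ × ℤ) :=
  Finset.sigma (Finset.Icc 1 s) (fun ρ => Finset.Icc (-(ρ : ℤ)) ρ ×ˢ
    (Finset.Icc (-((s / ρ : ℕ) : ℤ)) ((s / ρ : ℕ) : ℤ) ×ˢ
      Finset.Icc (-((m / ρ : ℕ) : ℤ)) ((m / ρ : ℕ) : ℤ)))

/-- the parametrisation `(gρ, gb, kρ, kb)` -/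
def PhiT (z : Σ _ : ℕ, ℤ × ℤ × ℤ) : ℤ × ℤ × ℤ × ℤ :=
  (z.2.2.1 * z.1, z.2.2.1 * z.2.1, z.2.2.2 * z.1, z.2.2.2 * z.2.1)

theorem card_TT {s t : ℕ} (ht : 1 ≤ t) :
    ((TT s (3 * t * s)).card : ℝ) ≤ 63 * t * (1 + Real.log s) * s ^ 2 := by
  unfold TT
  rw [Finset.card_sigma]
  push_cast
  have hterm : ∀ ρ ∈ Finset.Icc 1 s, (((Finset.Icc (-(ρ : ℤ)) ρ ×ˢ
    (Finset.Icc (-((s / ρ : ℕ) : ℤ)) ((s / ρ : ℕ) : ℤ) ×ˢ
      Finset.Icc (-((3 * t * s / ρ : ℕ) : ℤ)) ((3 * t * s / ρ : ℕ) : ℤ))).card : ℕ) : ℝ) ≤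
      63 * t * s ^ 2 * (ρ : ℝ)⁻¹ := by
    intro ρ hρ
    rw [Finset.mem_Icc] at hρ
    rw [Finset.card_product, Finset.card_product, Int.card_Icc, Int.card_Icc, Int.card_Icc]
    have e : ∀ n : ℕ, ((n : ℤ) + 1 - (-(n : ℤ))).toNat = 2 * n + 1 := by intro n; omega
    rw [e, e, e]
    have hρ0 : (0 : ℝ) < ρ := by
      have : 0 < ρ := hρ.1
      exact_mod_cast this
    have hρ1 : (1 : ℝ) ≤ ρ := by exact_mod_cast hρ.1
    have hρs : (ρ : ℝ) ≤ s := by exact_mod_cast hρ.2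
    have ht' : (1 : ℝ) ≤ t := by exact_mod_cast ht
    have h1 : ((s / ρ : ℕ) : ℝ) ≤ (s : ℝ) / ρ := Nat.cast_div_le
    have h2 : ((3 * t * s / ρ : ℕ) : ℝ) ≤ ((3 * t * s : ℕ) : ℝ) / ρ := Nat.cast_div_le
    have h3 : (1 : ℝ) ≤ (s : ℝ) / ρ := by rw [le_div_iff₀ hρ0]; linarith
    have h4 : (1 : ℝ) ≤ t * s / ρ := by
      rw [mul_div_assoc]
      nlinarith
    push_cast at h2 ⊢
    have A : (2 * (ρ : ℝ) + 1) ≤ 3 * ρ := by linarith
    have B : (2 * ((s / ρ : ℕ) : ℝ) + 1) ≤ 3 * (s / ρ) := by linarith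
    have C : (2 * ((3 * t * s / ρ : ℕ) : ℝ) + 1) ≤ 7 * (t * s / ρ) := by
      have : 3 * (t : ℝ) * s / ρ = 3 * (t * s / ρ) := by ring
      rw [this] at h2
      linarith
    calc (2 * (ρ : ℝ) + 1) * ((2 * ((s / ρ : ℕ) : ℝ) + 1) * (2 * ((3 * t * s / ρ : ℕ) : ℝ) + 1))
        ≤ (3 * ρ) * ((3 * (s / ρ)) * (7 * (t * s / ρ))) := by
          apply mul_le_mul A _ (by positivity) (by positivity)
          exact mul_le_mul B C (by positivity) (by positivity)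
      _ = 63 * t * s ^ 2 * (ρ : ℝ)⁻¹ := by
          field_simp
          ring
  calc _ ≤ ∑ ρ ∈ Finset.Icc 1 s, 63 * t * s ^ 2 * (ρ : ℝ)⁻¹ := Finset.sum_le_sum hterm
    _ = 63 * t * s ^ 2 * ∑ ρ ∈ Finset.Icc 1 s, (ρ : ℝ)⁻¹ := by rw [Finset.mul_sum]
    _ ≤ 63 * t * s ^ 2 * (1 + Real.log s) := by
        apply mul_le_mul_of_nonneg_left _ (by positivity)
        have h := harmonic_le_one_add_log s
        rw [harmonic_eq_sum_Icc] at h
        push_cast at h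
        exact h
    _ = _ := by ring

/-- the arithmetic heart -/
theorem mem_image_PhiT {s m : ℕ} {a b c d : ℤ} (ha : a ≠ 0) (hab : |b| ≤ |a|) (has : |a| ≤ s)
    (hc : |c| ≤ m) (h : a * d = b * c) : (a, b, c, d) ∈ (TT s m).image PhiT := by
  rw [Finset.mem_image]
  have hG : 0 < Int.gcd a b := Int.gcd_pos_of_ne_zero_left b ha
  obtain ⟨a', ea⟩ := Int.gcd_dvd_left a b
  obtain ⟨b', eb⟩ := Int.gcd_dvd_right a b
  have hcop : IsCoprime a' b' := by
    rw [Int.isCoprime_iff_gcd_eq_one]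
    obtain ⟨g, hg⟩ : ∃ g : ℕ, g = Int.gcd a b := ⟨_, rfl⟩
    rw [← hg] at ea eb hG
    have h1 : g = g * Int.gcd a' b' := by
      have h2 : Int.gcd a b = Int.gcd ((g : ℤ) * a') ((g : ℤ) * b') := by rw [← ea, ← eb]
      rw [Int.gcd_mul_left, ← hg] at h2
      simpa using h2
    exact Nat.eq_of_mul_eq_mul_left hG (by rw [← h1, mul_one])
  have ha' : a' ≠ 0 := by
    rintro rfl
    rw [mul_zero] at ea
    exact ha ea
  have hG' : ((Int.gcd a b : ℕ) : ℤ) ≠ 0 := by exact_mod_cast hG.ne'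
  obtain ⟨G, hGe⟩ : ∃ G : ℤ, G = ((Int.gcd a b : ℕ) : ℤ) := ⟨_, rfl⟩
  rw [← hGe] at ea eb hG'
  have hd : a' * d = b' * c := by
    have : G * (a' * d) = G * (b' * c) := by
      calc G * (a' * d) = (G * a') * d := by ring
        _ = a * d := by rw [← ea]
        _ = b * c := h
        _ = (G * b') * c := by rw [← eb]
        _ = _ := by ring
    exact mul_left_cancel₀ hG' this
  obtain ⟨k, ek⟩ : a' ∣ c := by
    have : a' ∣ b' * c := ⟨d, hd.symm⟩
    exact hcop.dvd_of_dvd_mul_left this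
  have ed : d = b' * k := by
    have : a' * d = a' * (b' * k) := by rw [hd, ek]; ring
    exact mul_left_cancel₀ ha' this
  -- the absolute value of `a'` is `ρ`
  obtain ⟨ρ, hρ⟩ : ∃ ρ : ℕ, (ρ : ℤ) = |a'| := ⟨a'.natAbs, by simp⟩
  obtain ⟨e, he, he1⟩ : ∃ e : ℤ, a' = e * ρ ∧ (e = 1 ∨ e = -1) := by
    rcases le_or_gt 0 a' with h0 | h0
    · exact ⟨1, by rw [hρ, abs_of_nonneg h0, one_mul], Or.inl rfl⟩
    · exact ⟨-1, by rw [hρ, abs_of_neg h0]; ring, Or.inr rfl⟩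
  have hee : e * e = 1 := by rcases he1 with rfl | rfl <;> norm_num
  have hea : |e| = 1 := by rcases he1 with rfl | rfl <;> norm_num
  have hρ0 : 0 < ρ := by
    have : 0 < |a'| := abs_pos.mpr ha'
    rw [← hρ] at this
    exact_mod_cast this
  have hρz : (0 : ℤ) < ρ := by exact_mod_cast hρ0
  have hGabs : |G| * ρ = |a| := by rw [ea, abs_mul, hρ]
  have hkabs : |k| * ρ = |c| := by rw [ek, abs_mul, hρ, mul_comm]
  have hGp : 0 < |G| := abs_pos.mpr hG'
  refine ⟨⟨ρ, e * b', e * G, e * k⟩, ?_, ?_⟩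
  · unfold TT
    rw [Finset.mem_sigma]
    refine ⟨?_, ?_⟩
    · rw [Finset.mem_Icc]
      refine ⟨hρ0, ?_⟩
      have : (ρ : ℤ) ≤ s := by
        calc (ρ : ℤ) ≤ |G| * ρ := by nlinarith
          _ = |a| := hGabs
          _ ≤ s := has
      exact_mod_cast this
    · simp only [Finset.mem_product, Finset.mem_Icc]
      rw [← abs_le, ← abs_le, ← abs_le]
      refine ⟨?_, ?_, ?_⟩
      · rw [abs_mul, hea, one_mul]
        have h1 : |G| * |b'| ≤ |G| * ρ := by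
          rw [hGabs, ← abs_mul, ← eb]
          exact hab
        exact le_of_mul_le_mul_left h1 hGp
      · rw [abs_mul, hea, one_mul]
        push_cast
        rw [Int.le_ediv_iff_mul_le hρz, hGabs]
        exact has
      · rw [abs_mul, hea, one_mul]
        push_cast
        rw [Int.le_ediv_iff_mul_le hρz, hkabs]
        exact hc
  · unfold PhiT
    simp only [Prod.mk.injEq]
    refine ⟨?_, ?_, ?_, ?_⟩
    · calc e * G * ρ = G * (e * ρ) := by ring
        _ = a := by rw [← he, ← ea]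
    · calc e * G * (e * b') = (e * e) * (G * b') := by ring
        _ = b := by rw [hee, one_mul, ← eb]
    · calc e * k * ρ = (e * ρ) * k := by ring
        _ = c := by rw [← he, ← ek]
    · calc e * k * (e * b') = (e * e) * (b' * k) := by ring
        _ = d := by rw [hee, one_mul, ← ed]

end Geom

open Geom

theorem stmt_G2 : Stmt_G2 := by
  intro t s ht hs x
  obtain ⟨S0, hS0⟩ : ∃ S0 : Finset (Pt t s), S0 =
    Finset.univ.filter (fun y : Pt t s => y.1 = x.1 ∧ y.2.1 = x.2.1) := ⟨_, rfl⟩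
  obtain ⟨S1, hS1⟩ : ∃ S1 : Finset (Pt t s), S1 = Finset.univ.filter (fun y : Pt t s =>
    ((y.1 : ℕ) : ℤ) - (x.1 : ℕ) ≠ 0 ∧ |((y.2.1 : ℕ) : ℤ) - (x.2.1 : ℕ)| ≤
      |((y.1 : ℕ) : ℤ) - (x.1 : ℕ)| ∧ det t s x y = 0) := ⟨_, rfl⟩
  obtain ⟨S2, hS2⟩ : ∃ S2 : Finset (Pt t s), S2 = Finset.univ.filter (fun y : Pt t s =>
    ((y.2.1 : ℕ) : ℤ) - (x.2.1 : ℕ) ≠ 0 ∧ |((y.1 : ℕ) : ℤ) - (x.1 : ℕ)| ≤
      |((y.2.1 : ℕ) : ℤ) - (x.2.1 : ℕ)| ∧ det t s x y = 0) := ⟨_, rfl⟩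
  have hsub : Finset.univ.filter (fun y : Pt t s => y ≠ x ∧ det t s x y = 0) ⊆
      (S0 ∪ S1) ∪ S2 := by
    intro y hy
    rw [Finset.mem_filter] at hy
    obtain ⟨_, hyx, hd⟩ := hy
    rw [Finset.mem_union, Finset.mem_union, hS0, hS1, hS2]
    simp only [Finset.mem_filter, Finset.mem_univ, true_and]
    by_cases h0 : y.1 = x.1 ∧ y.2.1 = x.2.1
    · exact Or.inl (Or.inl h0)
    · rcases le_total |((y.2.1 : ℕ) : ℤ) - (x.2.1 : ℕ)| |((y.1 : ℕ) : ℤ) - (x.1 : ℕ)| with h | h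
      · refine Or.inl (Or.inr ⟨?_, h, hd⟩)
        intro h1
        rw [h1, abs_zero, abs_nonpos_iff] at h
        apply h0
        exact ⟨Fin.ext (by omega), Fin.ext (by omega)⟩
      · refine Or.inr ⟨?_, h, hd⟩
        intro h1
        rw [h1, abs_zero, abs_nonpos_iff] at h
        apply h0
        exact ⟨Fin.ext (by omega), Fin.ext (by omega)⟩
  have c0 : S0.card ≤ (3 * t * s) ^ 2 := by
    have := Finset.card_le_card_of_injOn
      (s := S0) (t := (Finset.univ : Finset (Fin (3 * t * s) × Fin (3 * t * s))))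
      (fun z => (z.2.2.1, z.2.2.2)) (fun z _ => Finset.mem_univ _) ?_
    · rw [sq]
      simpa using this
    · intro z hz z' hz' hzz
      rw [hS0] at hz hz'
      simp only [Finset.coe_filter, Finset.mem_univ, true_and, Set.mem_ofPred_eq] at hz hz'
      simp only [Prod.mk.injEq] at hzz
      apply pt_ext
      · rw [hz.1, hz'.1]
      · rw [hz.2, hz'.2]
      · rw [hzz.1]
      · rw [hzz.2]
  have bw : ∀ u v : Fin s, |((u : ℕ) : ℤ) - (v : ℕ)| ≤ (s : ℤ) := by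
    intro u v
    have := u.2
    have := v.2
    rw [abs_le]; constructor <;> omega
  have by' : ∀ u v : Fin (3 * t * s), |((u : ℕ) : ℤ) - (v : ℕ)| ≤ ((3 * t * s : ℕ) : ℤ) := by
    intro u v
    have h1 := u.2
    have h2 := v.2
    rw [abs_le]; constructor <;> omega
  have c1 : S1.card ≤ (TT s (3 * t * s)).card := by
    have h1 := Finset.card_le_card_of_injOn
      (s := S1) (t := (TT s (3 * t * s)).image PhiT)
      (fun y => (((y.1 : ℕ) : ℤ) - (x.1 : ℕ), ((y.2.1 : ℕ) : ℤ) - (x.2.1 : ℕ),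
        ((y.2.2.1 : ℕ) : ℤ) - (x.2.2.1 : ℕ), ((y.2.2.2 : ℕ) : ℤ) - (x.2.2.2 : ℕ))) ?_ ?_
    · exact h1.trans Finset.card_image_le
    · intro y hy
      rw [hS1] at hy
      simp only [Finset.coe_filter, Finset.mem_univ, true_and, Set.mem_ofPred_eq] at hy
      obtain ⟨h1, h2, h3⟩ := hy
      unfold det at h3
      apply mem_image_PhiT h1 h2 (bw _ _) (by' _ _)
      linarith
    · intro z _ z' _ hzz
      simp only [Prod.mk.injEq] at hzz
      obtain ⟨e1, e2, e3, e4⟩ := hzz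
      exact pt_ext (by linarith) (by linarith) (by linarith) (by linarith)
  have c2 : S2.card ≤ (TT s (3 * t * s)).card := by
    have h1 := Finset.card_le_card_of_injOn
      (s := S2) (t := (TT s (3 * t * s)).image PhiT)
      (fun y => (((y.2.1 : ℕ) : ℤ) - (x.2.1 : ℕ), ((y.1 : ℕ) : ℤ) - (x.1 : ℕ),
        ((y.2.2.2 : ℕ) : ℤ) - (x.2.2.2 : ℕ), ((y.2.2.1 : ℕ) : ℤ) - (x.2.2.1 : ℕ))) ?_ ?_
    · exact h1.trans Finset.card_image_le
    · intro y hy
      rw [hS2] at hy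
      simp only [Finset.coe_filter, Finset.mem_univ, true_and, Set.mem_ofPred_eq] at hy
      obtain ⟨h1, h2, h3⟩ := hy
      unfold det at h3
      apply mem_image_PhiT h1 h2 (bw _ _) (by' _ _)
      linarith
    · intro z _ z' _ hzz
      simp only [Prod.mk.injEq] at hzz
      obtain ⟨e1, e2, e3, e4⟩ := hzz
      exact pt_ext (by linarith) (by linarith) (by linarith) (by linarith)
  have hcard := (Finset.card_le_card hsub).trans
    ((Finset.card_union_le _ _).trans (Nat.add_le_add_right (Finset.card_union_le _ _) _))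
  have hT := card_TT (s := s) ht
  have hlog : 0 ≤ Real.log s := Real.log_natCast_nonneg s
  have ht' : (1 : ℝ) ≤ t := by exact_mod_cast ht
  have hs' : (1 : ℝ) ≤ s := by exact_mod_cast hs
  have c0' : (S0.card : ℝ) ≤ 9 * t ^ 2 * s ^ 2 := by
    have : (S0.card : ℝ) ≤ ((3 * t * s) ^ 2 : ℕ) := by exact_mod_cast c0
    push_cast at this
    linarith
  have c1' : (S1.card : ℝ) ≤ (TT s (3 * t * s)).card := by exact_mod_cast c1
  have c2' : (S2.card : ℝ) ≤ (TT s (3 * t * s)).card := by exact_mod_cast c2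
  have hcard' : ((Finset.univ.filter (fun y : Pt t s => y ≠ x ∧ det t s x y = 0)).card : ℝ) ≤
      S0.card + S1.card + S2.card := by exact_mod_cast hcard
  have f1 : 9 * (t : ℝ) ^ 2 * s ^ 2 ≤ 9 * t ^ 2 * s ^ 2 * (1 + Real.log s) := by
    apply le_mul_of_one_le_right (by positivity)
    linarith
  have f2 : 63 * (t : ℝ) * (1 + Real.log s) * s ^ 2 ≤ 63 * t ^ 2 * (1 + Real.log s) * s ^ 2 := by
    have : (t : ℝ) ≤ t ^ 2 := by nlinarith
    have h1 : 0 ≤ (1 + Real.log s) := by linarith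
    have h2 : 63 * (t : ℝ) ≤ 63 * t ^ 2 := by linarith
    exact mul_le_mul_of_nonneg_right (mul_le_mul_of_nonneg_right h2 h1) (by positivity)
  have f3 : 0 ≤ (t : ℝ) ^ 2 * (1 + Real.log s) * s ^ 2 := by positivity
  linarith

end EpsNet
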