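import Pool.Agent.Work.MP_ef7f46_co_helper59.G1

/-!
MP_ef7f46_co: block G3.
-/

set_option autoImplicit false
open Classical

namespace EpsNet

namespace Geom

theorem mline_ne (t s : ℕ) (j : Fin t) (a : Fin (4 * t * s) × Fin (4 * t * s)) :
    (!₂[(0 : ℝ), (a.1 : ℝ) + (base t s : ℝ) * a.2] : Plane) ≠
      !₂[(1 : ℝ), (a.1 : ℝ) + (base t s : ℝ) * a.2 - (j : ℕ)] := by
  intro h
  have := congrArg (fun z : Plane => z 0) h
  simp at this

theorem mem_mline_iff (t s : ℕ) (j : Fin t) (a : Fin (4 * t * s) × Fin (4 * t * s)) (z : Plane) :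
    z ∈ mline t s j a ↔ z 1 = (a.1 : ℝ) + (base t s : ℝ) * a.2 - (j : ℕ) * z 0 := by
  unfold mline
  rw [mem_line_iff (mline_ne t s j a)]
  simp only [Matrix.cons_val_zero, Matrix.cons_val_one, Matrix.cons_val_fin_one]
  constructor
  · intro h; linarith
  · intro h; rw [h]; ring

theorem emb_mem_mline_iff {t s : ℕ} (ht : 1 ≤ t) (hs : 1 ≤ s) (j : Fin t)
    (a : Fin (4 * t * s) × Fin (4 * t * s)) (x : Pt t s) :
    emb t s x ∈ mline t s j a ↔ (((x.2.2.1 : ℕ) : ℤ) + (j : ℕ) * (x.1 : ℕ) = (a.1 : ℕ) ∧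
      ((x.2.2.2 : ℕ) : ℤ) + (j : ℕ) * (x.2.1 : ℕ) = (a.2 : ℕ)) := by
  rw [mem_mline_iff]
  simp only [emb_zero, emb_one]
  have hpos : (0 : ℤ) < t * s := by
    have h1 : (0 : ℤ) < t := by exact_mod_cast ht
    have h2 : (0 : ℤ) < s := by exact_mod_cast hs
    positivity
  constructor
  · intro h
    have h' : (((((x.2.2.1 : ℕ) : ℤ) + (j : ℕ) * (x.1 : ℕ) - (a.1 : ℕ)) + (base t s : ℤ) *
      (((x.2.2.2 : ℕ) : ℤ) + (j : ℕ) * (x.2.1 : ℕ) - (a.2 : ℕ)) : ℤ) : ℝ) = 0 := by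
      push_cast
      push_cast at h
      linarith
    have h'' : ((((x.2.2.1 : ℕ) : ℤ) + (j : ℕ) * (x.1 : ℕ) - (a.1 : ℕ)) + (base t s : ℤ) *
      (((x.2.2.2 : ℕ) : ℤ) + (j : ℕ) * (x.2.1 : ℕ) - (a.2 : ℕ)) : ℤ) = 0 := by exact_mod_cast h'
    have hb : (100 * (t * s) : ℤ) ≤ base t s := by exact_mod_cast base_ge (t := t) hs
    have b1 : ((x.2.2.1 : ℕ) : ℤ) < 3 * (t * s) := by
      have h1 := x.2.2.1.2
      have h3 : ((3 * t * s : ℕ) : ℤ) = (3 * (t * s) : ℤ) := by push_cast; ring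
      omega
    have b2 : ((j : ℕ) : ℤ) * (x.1 : ℕ) ≤ t * s := by
      have h1 := j.2
      have h2 := x.1.2
      have h3 : ((j : ℕ) : ℤ) ≤ t := by omega
      have h4 : ((x.1 : ℕ) : ℤ) ≤ s := by omega
      exact mul_le_mul h3 h4 (by positivity) (by positivity)
    have b3 : ((a.1 : ℕ) : ℤ) < 4 * (t * s) := by
      have h1 := a.1.2
      have h3 : ((4 * t * s : ℕ) : ℤ) = (4 * (t * s) : ℤ) := by push_cast; ring
      omega
    have b4 : (0 : ℤ) ≤ ((x.2.2.1 : ℕ) : ℤ) := by positivity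
    have b5 : (0 : ℤ) ≤ ((j : ℕ) : ℤ) * (x.1 : ℕ) := by positivity
    have b6 : (0 : ℤ) ≤ ((a.1 : ℕ) : ℤ) := by positivity
    obtain ⟨r0, r1⟩ := digits2 (by rw [abs_lt]; constructor <;> linarith) h''
    exact ⟨by linarith, by linarith⟩
  · rintro ⟨h1, h2⟩
    have e1 : ((x.2.2.1 : ℕ) : ℤ) + (base t s : ℤ) * ((x.2.2.2 : ℕ) : ℤ) =
        ((a.1 : ℕ) : ℤ) + (base t s : ℤ) * (a.2 : ℕ) -
          (j : ℕ) * (((x.1 : ℕ) : ℤ) + (base t s : ℤ) * ((x.2.1 : ℕ) : ℤ)) := by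
      linear_combination h1 + (base t s : ℤ) * h2
    rw [e1]
    push_cast
    ring

theorem mline_inj {t s : ℕ} (ht : 1 ≤ t) (hs : 1 ≤ s) :
    Function.Injective (fun ja : Fin t × (Fin (4 * t * s) × Fin (4 * t * s)) =>
    mline t s ja.1 ja.2) := by
  rintro ⟨j, a⟩ ⟨j', a'⟩ h
  simp only at h
  have m0 : (!₂[(0 : ℝ), (a.1 : ℝ) + (base t s : ℝ) * a.2] : Plane) ∈ mline t s j a := by
    rw [mem_mline_iff]; simp
  have m1 : (!₂[(1 : ℝ), (a.1 : ℝ) + (base t s : ℝ) * a.2 - (j : ℕ)] : Plane) ∈ mline t s j a := by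
    rw [mem_mline_iff]; simp
  rw [h, mem_mline_iff] at m0 m1
  simp only [Matrix.cons_val_zero, Matrix.cons_val_one,
    Matrix.cons_val_fin_one, mul_zero, sub_zero, mul_one] at m0 m1
  have hj : ((j : ℕ) : ℝ) = (j' : ℕ) := by linarith
  have hj' : j = j' := Fin.ext (by exact_mod_cast hj)
  have hpos : (0 : ℤ) < t * s := by
    have h1 : (0 : ℤ) < t := by exact_mod_cast ht
    have h2 : (0 : ℤ) < s := by exact_mod_cast hs
    positivity
  have h' : (((((a.1 : ℕ) : ℤ) - (a'.1 : ℕ)) + (base t s : ℤ) *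
      (((a.2 : ℕ) : ℤ) - (a'.2 : ℕ)) : ℤ) : ℝ) = 0 := by
    push_cast
    linarith
  have h'' : ((((a.1 : ℕ) : ℤ) - (a'.1 : ℕ)) + (base t s : ℤ) *
      (((a.2 : ℕ) : ℤ) - (a'.2 : ℕ)) : ℤ) = 0 := by exact_mod_cast h'
  have hb : (100 * (t * s) : ℤ) ≤ base t s := by exact_mod_cast base_ge (t := t) hs
  have h3 : ((4 * t * s : ℕ) : ℤ) = (4 * (t * s) : ℤ) := by push_cast; ring
  have b1 := a.1.2
  have b2 := a'.1.2
  obtain ⟨r0, r1⟩ := digits2 (by rw [abs_lt]; constructor <;> omega) h''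
  have e1 : a.1 = a'.1 := Fin.ext (by omega)
  have e2 : a.2 = a'.2 := Fin.ext (by omega)
  rw [hj', Prod.ext e1 e2]

end Geom

open Geom

theorem stmt_G3 : Stmt_G3 := by
  intro t s ht hs
  refine ⟨mline_inj ht hs, ?_, ?_⟩
  · intro x j
    have b1 : (x.2.2.1 : ℕ) < 3 * (t * s) := by
      have h1 := x.2.2.1.2
      have h3 : (3 * t * s : ℕ) = 3 * (t * s) := by ring
      omega
    have b2 : (x.2.2.2 : ℕ) < 3 * (t * s) := by
      have h1 := x.2.2.2.2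
      have h3 : (3 * t * s : ℕ) = 3 * (t * s) := by ring
      omega
    have b3 : (j : ℕ) * (x.1 : ℕ) ≤ t * s := Nat.mul_le_mul j.2.le x.1.2.le
    have b4 : (j : ℕ) * (x.2.1 : ℕ) ≤ t * s := Nat.mul_le_mul j.2.le x.2.1.2.le
    have h3 : (4 * t * s : ℕ) = 4 * (t * s) := by ring
    refine ⟨(⟨(x.2.2.1 : ℕ) + (j : ℕ) * (x.1 : ℕ), by omega⟩,
      ⟨(x.2.2.2 : ℕ) + (j : ℕ) * (x.2.1 : ℕ), by omega⟩), ?_, ?_⟩
    · show emb t s x ∈ mline t s j _
      rw [emb_mem_mline_iff ht hs]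
      constructor <;> push_cast <;> rfl
    · intro a ha
      have ha' : emb t s x ∈ mline t s j a := ha
      rw [emb_mem_mline_iff ht hs] at ha'
      obtain ⟨h1, h2⟩ := ha'
      apply Prod.ext
      · apply Fin.ext
        simp only
        have : ((a.1 : ℕ) : ℤ) = (((x.2.2.1 : ℕ) + (j : ℕ) * (x.1 : ℕ) : ℕ) : ℤ) := by
          rw [← h1]; push_cast; rfl
        exact_mod_cast this
      · apply Fin.ext
        simp only
        have : ((a.2 : ℕ) : ℤ) = (((x.2.2.2 : ℕ) + (j : ℕ) * (x.2.1 : ℕ) : ℕ) : ℤ) := by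
          rw [← h2]; push_cast; rfl
        exact_mod_cast this
  · intro j a
    have := Finset.card_le_card_of_injOn
      (s := Finset.univ.filter (fun x : Pt t s => emb t s x ∈ mline t s j a))
      (t := (Finset.univ : Finset (Fin s × Fin s))) (fun z => (z.1, z.2.1))
      (fun z _ => Finset.mem_univ _) ?_
    · rw [sq]
      simpa using this
    · intro z hz z' hz' hzz
      simp only [Finset.coe_filter, Finset.mem_univ, true_and, Set.mem_ofPred_eq] at hz hz'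
      rw [emb_mem_mline_iff ht hs] at hz hz'
      simp only [Prod.mk.injEq] at hzz
      obtain ⟨e1, e2⟩ := hzz
      obtain ⟨p1, p2⟩ := hz
      obtain ⟨q1, q2⟩ := hz'
      rw [e1] at p1
      rw [e2] at p2
      apply pt_ext
      · rw [e1]
      · rw [e2]
      · linarith
      · linarith

end EpsNet
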