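import Pool.Agent.Work.MP_ef7f46_co_helper59.G2
import Pool.Agent.Work.MP_ef7f46_co_helper59.G3

/-!
MP_ef7f46_co: block Geo.
-/

set_option autoImplicit false
open Classical

namespace EpsNet

namespace Geom

/-- the configuration points on `l` -/
noncomputable def ptsOn (t s : ℕ) (l : AffineSubspace ℝ Plane) : Finset (Pt t s) :=
  Finset.univ.filter (fun x : Pt t s => emb t s x ∈ l)

theorem mem_ptsOn {t s : ℕ} {l : AffineSubspace ℝ Plane} {x : Pt t s} :
    x ∈ ptsOn t s l ↔ emb t s x ∈ l := by
  unfold ptsOn; simp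

/-- the main lines -/
noncomputable def VV (t s : ℕ) : Finset (AffineSubspace ℝ Plane) :=
  Finset.univ.image (fun ja : Fin t × (Fin (4 * t * s) × Fin (4 * t * s)) => mline t s ja.1 ja.2)

/-- the rich lines -/
noncomputable def RR (t s : ℕ) : Finset (AffineSubspace ℝ Plane) :=
  (((Finset.univ : Finset (Pt t s × Pt t s)).filter (fun xy => xy.1 ≠ xy.2)).image
    (fun xy => affineSpan ℝ ({emb t s xy.1, emb t s xy.2} : Set Plane))).filter
      (fun l => s < (ptsOn t s l).card)

theorem mem_RR_of {t s : ℕ} (hs : 1 ≤ s) {p q : Plane}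
    (h : s < (ptsOn t s (affineSpan ℝ ({p, q} : Set Plane))).card)
    (h0 : Function.Injective (emb t s)) :
    affineSpan ℝ ({p, q} : Set Plane) ∈ RR t s := by
  obtain ⟨x, hx, y, hy, hxy⟩ := Finset.one_lt_card.mp (lt_of_le_of_lt hs h)
  rw [mem_ptsOn] at hx hy
  have e := line_eq (fun h => hxy (h0 h)) hx hy
  unfold RR
  rw [Finset.mem_filter, Finset.mem_image]
  refine ⟨⟨(x, y), by simp [hxy], e⟩, h⟩

end Geom

open Geom

theorem stmt_Geo' (h0 : Stmt_G0) (h1 : Stmt_G1) (h2 : Stmt_G2) (h3 : Stmt_G3) : Stmt_Geo := by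
  intro t s ht hs
  obtain ⟨hinj, hex, hcard⟩ := h3 t s ht hs
  have e_inj := h0 t s ht hs
  have spanI : ∀ l ∈ VV t s ∪ RR t s, ∃ p q, p ≠ q ∧ l = affineSpan ℝ ({p, q} : Set Plane) := by
    intro l hl
    rw [Finset.mem_union] at hl
    rcases hl with hl | hl
    · unfold VV at hl
      rw [Finset.mem_image] at hl
      obtain ⟨⟨j, a⟩, _, rfl⟩ := hl
      exact ⟨_, _, mline_ne t s j a, rfl⟩
    · unfold RR at hl
      rw [Finset.mem_filter, Finset.mem_image] at hl
      obtain ⟨⟨⟨x, y⟩, hxy, rfl⟩, _⟩ := hl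
      rw [Finset.mem_filter] at hxy
      exact ⟨_, _, fun h => hxy.2 (e_inj h), rfl⟩
  have unique : ∀ l ∈ VV t s ∪ RR t s, ∀ l' ∈ VV t s ∪ RR t s, l ≠ l' → ∀ x y,
      emb t s x ∈ l → emb t s x ∈ l' → emb t s y ∈ l → emb t s y ∈ l' → x = y := by
    intro l hl l' hl' hll x y hx hx' hy hy'
    by_contra hxy
    apply hll
    have hne : emb t s x ≠ emb t s y := fun h => hxy (e_inj h)
    obtain ⟨p, q, hpq, rfl⟩ := spanI l hl
    obtain ⟨p', q', hpq', rfl⟩ := spanI l' hl'
    rw [← line_eq hne hx hy, ← line_eq hne hx' hy']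
  have Vcard : ∀ x, ((VV t s).filter (fun l => emb t s x ∈ l)).card = t := by
    intro x
    choose a ha ha' using hex x
    have e1 : (VV t s).filter (fun l => emb t s x ∈ l) =
        Finset.univ.image (fun j : Fin t => mline t s j (a j)) := by
      ext l
      simp only [VV, Finset.mem_filter, Finset.mem_image, Finset.mem_univ, true_and]
      constructor
      · rintro ⟨⟨⟨j, b⟩, rfl⟩, hx⟩
        exact ⟨j, by rw [ha' j b hx]⟩
      · rintro ⟨j, rfl⟩
        exact ⟨⟨(j, a j), rfl⟩, ha j⟩
    rw [e1, Finset.card_image_of_injective, Finset.card_univ, Fintype.card_fin]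
    intro j j' hjj
    have := @hinj (j, a j) (j', a j') hjj
    exact congrArg Prod.fst this
  -- the rich lines through `x`
  have rich : ∀ x, ∑ l ∈ (RR t s \ VV t s).filter (fun l => emb t s x ∈ l),
      ((ptsOn t s l).erase x).card ≤
        (Finset.univ.filter (fun y : Pt t s => y ≠ x ∧ det t s x y = 0)).card := by
    intro x
    rw [← Finset.card_biUnion]
    · apply Finset.card_le_card
      intro y hy
      rw [Finset.mem_biUnion] at hy
      obtain ⟨l, hl, hy⟩ := hy
      rw [Finset.mem_filter, Finset.mem_sdiff] at hl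
      obtain ⟨⟨hl, _⟩, hxl⟩ := hl
      rw [Finset.mem_erase, mem_ptsOn] at hy
      rw [Finset.mem_filter]
      refine ⟨Finset.mem_univ _, hy.1, ?_⟩
      by_contra hdet
      obtain ⟨p, q, hpq, e⟩ := spanI l (Finset.mem_union_right _ hl)
      rw [e] at hxl hy
      have := h1 t s ht hs p q hpq x y hxl hy.2 hdet
      unfold RR at hl
      rw [Finset.mem_filter] at hl
      have h4 := hl.2
      rw [e] at h4
      unfold ptsOn at h4
      omega
    · intro l hl l' hl' hll
      show Disjoint ((ptsOn t s l).erase x) ((ptsOn t s l').erase x)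
      rw [Finset.disjoint_left]
      intro y hy hy'
      rw [Finset.mem_erase, mem_ptsOn] at hy hy'
      rw [Finset.mem_coe, Finset.mem_filter, Finset.mem_sdiff] at hl hl'
      exact hy.1 (unique l (Finset.mem_union_right _ hl.1.1) l'
        (Finset.mem_union_right _ hl'.1.1) hll y x hy.2 hy'.2 hl.2 hl'.2)
  have erase_card : ∀ x, ∀ l ∈ (RR t s \ VV t s).filter (fun l => emb t s x ∈ l),
      s ≤ ((ptsOn t s l).erase x).card ∧
        (ptsOn t s l).card ≤ 2 * ((ptsOn t s l).erase x).card := by
    intro x l hl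
    rw [Finset.mem_filter, Finset.mem_sdiff] at hl
    obtain ⟨⟨hl, _⟩, hxl⟩ := hl
    unfold RR at hl
    rw [Finset.mem_filter] at hl
    have h4 := hl.2
    rw [Finset.card_erase_of_mem (mem_ptsOn.mpr hxl)]
    omega
  have split : ∀ x, (VV t s ∪ RR t s).filter (fun l => emb t s x ∈ l) =
      (VV t s).filter (fun l => emb t s x ∈ l) ∪
        (RR t s \ VV t s).filter (fun l => emb t s x ∈ l) := by
    intro x
    rw [← Finset.filter_union, Finset.union_sdiff_self_eq_union]
  have disj : ∀ x, Disjoint ((VV t s).filter (fun l => emb t s x ∈ l))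
      ((RR t s \ VV t s).filter (fun l => emb t s x ∈ l)) := by
    intro x
    apply Finset.disjoint_filter_filter
    exact Finset.disjoint_sdiff
  have hlog : 0 ≤ Real.log s := Real.log_natCast_nonneg s
  have ht' : (1 : ℝ) ≤ t := by exact_mod_cast ht
  have hs' : (1 : ℝ) ≤ s := by exact_mod_cast hs
  have hcard' : ∀ v ∈ VV t s, (ptsOn t s v).card ≤ s ^ 2 := by
    intro v hv
    unfold VV at hv
    rw [Finset.mem_image] at hv
    obtain ⟨⟨j, a⟩, _, rfl⟩ := hv
    exact hcard j a
  refine ⟨emb t s, VV t s ∪ RR t s, VV t s, e_inj, Finset.subset_union_left, ?_, spanI, Vcard,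
    unique, hcard', ?_, ?_, ?_⟩
  · unfold VV
    rw [Finset.card_image_of_injective _ hinj, Finset.card_univ]
    simp only [Fintype.card_prod, Fintype.card_fin]
    ring
  · intro x
    show ∑ l ∈ (VV t s ∪ RR t s).filter (fun l => emb t s x ∈ l),
      ((ptsOn t s l).card : ℝ) ≤ 600 * t ^ 2 * (1 + Real.log s) * s ^ 2
    rw [split x, Finset.sum_union (disj x)]
    have A : ∑ l ∈ (VV t s).filter (fun l => emb t s x ∈ l), ((ptsOn t s l).card : ℝ) ≤
        t * s ^ 2 := by
      calc _ ≤ ∑ l ∈ (VV t s).filter (fun l => emb t s x ∈ l), ((s : ℝ) ^ 2) := by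
            apply Finset.sum_le_sum
            intro l hl
            rw [Finset.mem_filter] at hl
            exact_mod_cast hcard' l hl.1
        _ = t * s ^ 2 := by rw [Finset.sum_const, Vcard x, nsmul_eq_mul]
    have B : ∑ l ∈ (RR t s \ VV t s).filter (fun l => emb t s x ∈ l),
        ((ptsOn t s l).card : ℝ) ≤ 2 * (252 * t ^ 2 * (1 + Real.log s) * s ^ 2) := by
      calc _ ≤ ∑ l ∈ (RR t s \ VV t s).filter (fun l => emb t s x ∈ l),
            ((2 * ((ptsOn t s l).erase x).card : ℕ) : ℝ) := by
            apply Finset.sum_le_sum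
            intro l hl
            exact_mod_cast (erase_card x l hl).2
        _ = 2 * ((∑ l ∈ (RR t s \ VV t s).filter (fun l => emb t s x ∈ l),
            ((ptsOn t s l).erase x).card : ℕ) : ℝ) := by
            push_cast
            rw [Finset.mul_sum]
        _ ≤ 2 * (Finset.univ.filter (fun y : Pt t s => y ≠ x ∧ det t s x y = 0)).card := by
            have := rich x
            have : ((∑ l ∈ (RR t s \ VV t s).filter (fun l => emb t s x ∈ l),
              ((ptsOn t s l).erase x).card : ℕ) : ℝ) ≤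
              (Finset.univ.filter (fun y : Pt t s => y ≠ x ∧ det t s x y = 0)).card := by
              exact_mod_cast this
            linarith
        _ ≤ _ := by
            have := h2 t s ht hs x
            linarith
    have f1 : (t : ℝ) * s ^ 2 ≤ t ^ 2 * (1 + Real.log s) * s ^ 2 := by
      have h5 : (t : ℝ) ≤ t ^ 2 * (1 + Real.log s) := by
        have h6 : (t : ℝ) ≤ t ^ 2 := by nlinarith
        exact h6.trans (le_mul_of_one_le_right (by positivity) (by linarith))
      exact mul_le_mul_of_nonneg_right h5 (by positivity)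
    have f3 : 0 ≤ (t : ℝ) ^ 2 * (1 + Real.log s) * s ^ 2 := by positivity
    linarith
  · intro x
    rw [split x, Finset.card_union_of_disjoint (disj x), Vcard x]
    push_cast
    have B : (((RR t s \ VV t s).filter (fun l => emb t s x ∈ l)).card : ℝ) ≤
        252 * t ^ 2 * (1 + Real.log s) * s := by
      have h5 : ((RR t s \ VV t s).filter (fun l => emb t s x ∈ l)).card * s ≤
          (Finset.univ.filter (fun y : Pt t s => y ≠ x ∧ det t s x y = 0)).card := by
        calc _ = ∑ l ∈ (RR t s \ VV t s).filter (fun l => emb t s x ∈ l), s := by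
              rw [Finset.sum_const, smul_eq_mul]
          _ ≤ ∑ l ∈ (RR t s \ VV t s).filter (fun l => emb t s x ∈ l),
              ((ptsOn t s l).erase x).card :=
              Finset.sum_le_sum (fun l hl => (erase_card x l hl).1)
          _ ≤ _ := rich x
      have h6 : (((RR t s \ VV t s).filter (fun l => emb t s x ∈ l)).card : ℝ) * s ≤
          252 * t ^ 2 * (1 + Real.log s) * s * s := by
        calc (((RR t s \ VV t s).filter (fun l => emb t s x ∈ l)).card : ℝ) * s
            ≤ (Finset.univ.filter (fun y : Pt t s => y ≠ x ∧ det t s x y = 0)).card := by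
              exact_mod_cast h5
          _ ≤ 252 * t ^ 2 * (1 + Real.log s) * s ^ 2 := h2 t s ht hs x
          _ = _ := by ring
      exact le_of_mul_le_mul_right h6 (by linarith)
    have f1 : (t : ℝ) ≤ t ^ 2 * (1 + Real.log s) * s := by
      have h6 : (t : ℝ) ≤ t ^ 2 := by nlinarith
      have h7 : (t : ℝ) ^ 2 ≤ t ^ 2 * (1 + Real.log s) :=
        le_mul_of_one_le_right (by positivity) (by linarith)
      have h8 : (t : ℝ) ^ 2 * (1 + Real.log s) ≤ t ^ 2 * (1 + Real.log s) * s :=
        le_mul_of_one_le_right (by positivity) hs'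
      linarith
    have f3 : 0 ≤ (t : ℝ) ^ 2 * (1 + Real.log s) * s := by positivity
    linarith
  · intro p q hpq hI
    by_contra hc
    apply hI
    apply Finset.mem_union_right
    apply mem_RR_of hs _ e_inj
    unfold ptsOn
    omega

theorem stmt_Geo : Stmt_Geo := stmt_Geo' stmt_G0 stmt_G1 stmt_G2 stmt_G3

end EpsNet
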